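import Pool.Agent.Helper10.DE.ET.Defs

/-!
# DE III.1  Closed sets of configurations

* `closed_measurable`: the complement of `C` is the union over all `(F, pattern on F)` of those
  cylinders which are contained in the complement; there are countably many (`Finset (V d)`
  countable, `F → A` finite).
* `closed_cfg`: if `ω ∉ Cfg st`, either `mv st ω x = mv st ω y` with `x ≠ y` (take `F = {x, y}`), or `y`
  is not in the range (take `F = {y - st a | a}`: if `mv st ω' x = y` then `x = y - st (ω' x) ∈ F`, so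
  `ω' x = ω x` and `mv st ω x = y`).
* `shift_cfg`: `mv st (shift v ω) x = mv st ω (x + v) - v`.
* `closed_lim`: limit of measures carried by a closed set.  The complement is a countable union of
  cylinders, each of measure `0` for all `μ n`, hence for `ν`.
-/

noncomputable section

open MeasureTheory Filter Topology

namespace Helper15.DE

variable {d : ℕ} {A : Type} [Fintype A] [MeasurableSpace A] [MeasurableSingletonClass A]

namespace CPClosed

omit [Fintype A] [MeasurableSpace A] [MeasurableSingletonClass A] in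
/-- the complement of a closed set is a union of cylinders -/
theorem compl_eq (C : Set (V d → A)) (hC : ClosedC C) :
    Cᶜ = ⋃ p : {p : Σ F : Finset (V d), (F → A) //
      {ω : V d → A | ∀ x : p.1, ω x = p.2 x} ⊆ Cᶜ}, {ω : V d → A | ∀ x : p.1.1, ω x = p.1.2 x} := by
  ext ω
  rw [Set.mem_iUnion]
  constructor
  · intro h
    obtain ⟨F, hF⟩ := hC ω h
    refine ⟨⟨⟨F, fun x => ω x⟩, ?_⟩, fun x => rfl⟩
    intro ω' h'
    exact hF ω' fun x hx => h' ⟨x, hx⟩
  · rintro ⟨p, hp⟩
    exact p.2 hp

omit [Fintype A] in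
theorem meas_cyl (F : Finset (V d)) (a : F → A) :
    MeasurableSet {ω : V d → A | ∀ x : F, ω x = a x} := by
  have : {ω : V d → A | ∀ x : F, ω x = a x} =
      ⋂ x : F, (fun ω : V d → A => ω x) ⁻¹' {a x} := by
    ext ω
    simp
  rw [this]
  exact MeasurableSet.iInter fun x => (measurable_pi_apply _) (measurableSet_singleton _)

end CPClosed

theorem closed_measurable (C : Set (V d → A)) (hC : ClosedC C) : MeasurableSet C := by
  rw [← MeasurableSet.compl_iff, CPClosed.compl_eq C hC]
  exact MeasurableSet.iUnion fun p => CPClosed.meas_cyl _ _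

omit [MeasurableSpace A] [MeasurableSingletonClass A] in
theorem closed_cfg (st : A → V d) : ClosedC (Cfg st) := by
  classical
  intro ω hω
  have hω' : ¬ (Function.Injective (mv st ω) ∧ Function.Surjective (mv st ω)) := hω
  rw [not_and_or] at hω'
  rcases hω' with h | h
  · simp only [Function.Injective] at h
    push Not at h
    obtain ⟨x, y, hxy, hne⟩ := h
    refine ⟨{x, y}, fun ω' h' hc => hne (hc.1 ?_)⟩
    have hx := h' x (by simp)
    have hy := h' y (by simp)
    simp only [mv] at hxy ⊢
    rw [hx, hy]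
    exact hxy
  · simp only [Function.Surjective] at h
    push Not at h
    obtain ⟨y, hy⟩ := h
    refine ⟨Finset.univ.image fun a => y - st a, fun ω' h' hc => ?_⟩
    obtain ⟨x, hx⟩ := hc.2 y
    have hx' : y - st (ω' x) = x := by
      rw [← hx]
      simp [mv]
    have hmem : x ∈ Finset.univ.image fun a => y - st a :=
      Finset.mem_image.2 ⟨ω' x, Finset.mem_univ _, hx'⟩
    have h1 := h' x hmem
    refine hy x ?_
    rw [← hx]
    simp only [mv]
    rw [h1]

omit [MeasurableSpace A] [MeasurableSingletonClass A] in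
theorem closed_cfg2 (st : A → V d) : ClosedC (Cfg2 st) := by
  intro ω hω
  have hω' : ¬ (c1 ω ∈ Cfg st ∧ c2 ω ∈ Cfg st) := hω
  rw [not_and_or] at hω'
  rcases hω' with h | h
  · obtain ⟨F, hF⟩ := closed_cfg st (c1 ω) h
    refine ⟨F, fun ω' h' hc => hF (c1 ω') (fun x hx => ?_) hc.1⟩
    simp only [c1]
    rw [h' x hx]
  · obtain ⟨F, hF⟩ := closed_cfg st (c2 ω) h
    refine ⟨F, fun ω' h' hc => hF (c2 ω') (fun x hx => ?_) hc.2⟩
    simp only [c2]
    rw [h' x hx]

omit [Fintype A] [MeasurableSpace A] [MeasurableSingletonClass A] in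
theorem shift_cfg (st : A → V d) : ShiftC (Cfg st) := by
  intro v ω hω
  have hω' : Function.Bijective (mv st ω) := hω
  have h : mv st (shift v ω) = (Equiv.subRight v) ∘ (mv st ω) ∘ (Equiv.addRight v) := by
    funext x
    simp only [mv, shift, Function.comp, Equiv.coe_addRight, Equiv.subRight_apply]
    abel
  show Function.Bijective (mv st (shift v ω))
  rw [h]
  exact (Equiv.bijective _).comp (hω'.comp (Equiv.bijective _))

omit [Fintype A] [MeasurableSpace A] [MeasurableSingletonClass A] in
theorem shift_cfg2 (st : A → V d) : ShiftC (Cfg2 st) := by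
  intro v ω hω
  exact ⟨shift_cfg st v (c1 ω) hω.1, shift_cfg st v (c2 ω) hω.2⟩

omit [Fintype A] [MeasurableSpace A] [MeasurableSingletonClass A] in
theorem closed_inter (C C' : Set (V d → A)) (h : ClosedC C) (h' : ClosedC C') :
    ClosedC (C ∩ C') := by
  intro ω hω
  have hω' : ¬ (ω ∈ C ∧ ω ∈ C') := hω
  rw [not_and_or] at hω'
  rcases hω' with h1 | h1
  · obtain ⟨F, hF⟩ := h ω h1
    exact ⟨F, fun ω' h2 hc => hF ω' h2 hc.1⟩
  · obtain ⟨F, hF⟩ := h' ω h1
    exact ⟨F, fun ω' h2 hc => hF ω' h2 hc.2⟩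

theorem closed_lim (C : Set (V d → A)) (hC : ClosedC C) (μ : ℕ → Measure (V d → A))
    (ν : Measure (V d → A)) (hμ : ∀ n, IsProbabilityMeasure (μ n)) (hν : IsProbabilityMeasure ν)
    (h : CylTo μ ν) (hs : ∀ n, ∀ᵐ ω ∂(μ n), ω ∈ C) : ∀ᵐ ω ∂ν, ω ∈ C := by
  show ν Cᶜ = 0
  rw [CPClosed.compl_eq C hC, measure_iUnion_null_iff]
  intro p
  have h1 : ∀ n, (μ n).real {ω : V d → A | ∀ x : p.1.1, ω x = p.1.2 x} = 0 := by
    intro n
    have h2 : (μ n) Cᶜ = 0 := hs n
    rw [Measure.real, measure_mono_null p.2 h2]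
    rfl
  have h3 := h p.1.1 p.1.2
  simp only [h1] at h3
  have h4 : ν.real {ω : V d → A | ∀ x : p.1.1, ω x = p.1.2 x} = 0 :=
    tendsto_nhds_unique h3 tendsto_const_nhds
  have h5 := (measureReal_eq_zero_iff (measure_ne_top ν _)).1 h4
  exact h5

end Helper15.DE
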