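import Pool.Agent.Helper10.DE.CP.Lim

/-!
# DE III.4  The function `Emax`: attained, concave, upper semicontinuous; pairs

* `emax_attained`: `exists_max` for `C = Cfg st`, `c = chg st`; the `sSup` is a maximum.
* `le_emax`: the set of values is bounded above by `log |A|`.
* `emax_concave`: mixtures (`inv_mix`, `mean_mix`, `hent_mix`, `hd`).
* `emax_usc`: maximizers at `s n`, a convergent subsequence, limit: feasible at `s₀` and
  `hent ≥ c₀` by `hent_usc`, `mean_tendsto`.
* `pair_emax`: `m.map c1`, `m.map c2` are in `Inv (Cfg st)`, with means `s₁, s₂`, `s₁ + s₂ = 2 s` (from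
  `mean (chg2 st) m = 2 s`, linearity of the integral); `hent m ≤ hent (m.map c1) + hent (m.map c2)
  ≤ Emax s₁ + Emax s₂ ≤ 2 Emax s` by `emax_concave` with `t = 1/2`.
* `pairLaw_inv`: independence.
* `inv_cond`: conditioning on an invariant event of positive probability;
  `cond_mix`: `μ = μ(E) μ(.|E) + (1 - μ(E)) μ(.|Eᶜ)`.
-/

noncomputable section

open MeasureTheory Filter Topology ProbabilityTheory

namespace Helper15.DE

variable {d : ℕ} {A : Type} [Fintype A] [MeasurableSpace A] [MeasurableSingletonClass A]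

theorem le_emax (st : A → V d) (μ : Measure (V d → A)) (hμ : Inv (Cfg st) μ) :
    hent μ ≤ Emax st (mean (chg st) μ) := by
  haveI := hμ.prob
  refine le_csSup ?_ ⟨μ, hμ, rfl, rfl⟩
  refine ⟨Real.log (Fintype.card A), ?_⟩
  rintro x ⟨ν, hν, -, rfl⟩
  haveI := hν.prob
  exact hent_le_log ν

theorem emax_attained (st : A → V d) (s : Fin d → ℝ)
    (h : ∃ μ, Inv (Cfg st) μ ∧ mean (chg st) μ = s) :
    ∃ μ, Inv (Cfg st) μ ∧ mean (chg st) μ = s ∧ hent μ = Emax st s := by
  obtain ⟨μ, hμ, hm, hmax⟩ := exists_max (Cfg st) (closed_cfg st) (chg st) s h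
  refine ⟨μ, hμ, hm, ?_⟩
  have : IsGreatest {h | ∃ μ, Inv (Cfg st) μ ∧ mean (chg st) μ = s ∧ hent μ = h} (hent μ) := by
    refine ⟨⟨μ, hμ, hm, rfl⟩, ?_⟩
    rintro x ⟨ν, hν, hs, rfl⟩
    exact hmax ν hν hs
  exact this.csSup_eq.symm

theorem emax_nonneg (st : A → V d) (s : Fin d → ℝ) : 0 ≤ Emax st s := by
  refine Real.sSup_nonneg ?_
  rintro x ⟨ν, hν, -, rfl⟩
  haveI := hν.prob
  exact hent_nonneg ν

theorem emax_concave (hd : 1 ≤ d) (st : A → V d) (s s' : Fin d → ℝ)
    (h : ∃ μ, Inv (Cfg st) μ ∧ mean (chg st) μ = s)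
    (h' : ∃ μ, Inv (Cfg st) μ ∧ mean (chg st) μ = s') (t : ℝ) (h0 : 0 ≤ t) (h1 : t ≤ 1) :
    (∃ μ, Inv (Cfg st) μ ∧ mean (chg st) μ = t • s + (1 - t) • s') ∧
    t * Emax st s + (1 - t) * Emax st s' ≤ Emax st (t • s + (1 - t) • s') := by
  obtain ⟨μ, hμ, hm, he⟩ := emax_attained st s h
  obtain ⟨ν, hν, hm', he'⟩ := emax_attained st s' h'
  haveI := hμ.prob
  haveI := hν.prob
  have hI := inv_mix (Cfg st) t h0 h1 μ ν hμ hν
  have hM := mean_mix (chg st) t h0 h1 μ ν
  rw [hm, hm'] at hM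
  refine ⟨⟨mix t μ ν, hI, hM⟩, ?_⟩
  have h2 := le_emax st _ hI
  rw [hM, hent_mix hd t h0 h1 μ ν hμ.map hν.map, he, he'] at h2
  exact h2

theorem emax_usc (st : A → V d) (s : ℕ → Fin d → ℝ) (s₀ : Fin d → ℝ)
    (hs : Tendsto s atTop (𝓝 s₀)) (h : ∀ n, ∃ μ, Inv (Cfg st) μ ∧ mean (chg st) μ = s n)
    (c : ℕ → ℝ) (c₀ : ℝ) (hc : Tendsto c atTop (𝓝 c₀)) (hle : ∀ n, c n ≤ Emax st (s n)) :
    (∃ μ, Inv (Cfg st) μ ∧ mean (chg st) μ = s₀) ∧ c₀ ≤ Emax st s₀ := by
  choose μ hμ hm he using fun n => emax_attained st (s n) (h n)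
  obtain ⟨ν, hν, φ, hφ, hcyl⟩ := seq_compact μ fun n => (hμ n).prob
  have hI : Inv (Cfg st) ν :=
    inv_lim (Cfg st) (closed_cfg st) (fun n => μ (φ n)) ν (fun n => hμ (φ n)) hν hcyl
  have hM : mean (chg st) ν = s₀ := by
    funext i
    have h1 := mean_tendsto (chg st) (fun n => μ (φ n)) ν (fun n => (hμ (φ n)).prob) hν hcyl i
    have h2 : Tendsto (fun n => s (φ n) i) atTop (𝓝 (s₀ i)) :=
      ((tendsto_pi_nhds.1 hs) i).comp hφ.tendsto_atTop
    have h3 : (fun n => mean (chg st) (μ (φ n)) i) = fun n => s (φ n) i := by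
      funext n
      rw [hm (φ n)]
    rw [h3] at h1
    exact tendsto_nhds_unique h1 h2
  refine ⟨⟨ν, hI, hM⟩, ?_⟩
  have h4 : c₀ ≤ hent ν := by
    refine hent_usc (fun n => μ (φ n)) ν (fun n => (hμ (φ n)).prob) hν hcyl (fun n => c (φ n)) c₀
      (hc.comp hφ.tendsto_atTop) fun n => ?_
    rw [he (φ n)]
    exact hle (φ n)
  have h5 := le_emax st ν hI
  rw [hM] at h5
  exact h4.trans h5

theorem pair_inv (st : A → V d) (m : Measure (V d → A × A)) (hm : Inv (Cfg2 st) m) :
    Inv (Cfg st) (m.map c1) ∧ Inv (Cfg st) (m.map c2) ∧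
      ∀ i, mean (chg2 st) m i = mean (chg st) (m.map c1) i + mean (chg st) (m.map c2) i := by
  haveI := hm.prob
  have key : ∀ g : (V d → A × A) → (V d → A), Measurable g →
      (∀ v, shift v ∘ g = g ∘ shift v) → (∀ᵐ ω ∂m, g ω ∈ Cfg st) → Inv (Cfg st) (m.map g) := by
    intro g hg hsh hae
    refine ⟨Measure.isProbabilityMeasure_map hg.aemeasurable, fun v => ?_, ?_⟩
    · rw [Measure.map_map (measurable_shiftE v) hg, hsh v,
        ← Measure.map_map hg (measurable_shiftE v), hm.map v]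
    · exact (ae_map_iff hg.aemeasurable (closed_measurable _ (closed_cfg st))).2 hae
  refine ⟨key c1 measurable_c1 (fun v => rfl) ?_, key c2 measurable_c2 (fun v => rfl) ?_, ?_⟩
  · filter_upwards [hm.supp] with ω hω using hω.1
  · filter_upwards [hm.supp] with ω hω using hω.2
  · intro i
    have hev : ∀ f : A × A → ℝ, Integrable (fun ω : V d → A × A => f (ω 0)) m := by
      intro f
      have hf : Measurable fun ω : V d → A × A => f (ω 0) :=
        (measurable_of_countable f).comp (measurable_pi_apply 0)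
      refine Integrable.of_bound hf.aestronglyMeasurable (∑ a, ‖f a‖) ?_
      filter_upwards with ω
      exact Finset.single_le_sum (f := fun a => ‖f a‖) (fun a _ => norm_nonneg _)
        (Finset.mem_univ (ω 0))
    have hev1 : ∀ f : A → ℝ, StronglyMeasurable (fun ω : V d → A => f (ω 0)) := fun f =>
      ((measurable_of_countable f).comp (measurable_pi_apply 0)).stronglyMeasurable
    have h1 : mean (chg st) (m.map c1) i = ∫ ω, chg st (ω 0).1 i ∂m := by
      unfold mean
      rw [integral_map measurable_c1.aemeasurable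
        (hev1 fun a => chg st a i).aestronglyMeasurable]
      rfl
    have h2 : mean (chg st) (m.map c2) i = ∫ ω, chg st (ω 0).2 i ∂m := by
      unfold mean
      rw [integral_map measurable_c2.aemeasurable
        (hev1 fun a => chg st a i).aestronglyMeasurable]
      rfl
    rw [h1, h2, ← integral_add (hev fun a => chg st a.1 i) (hev fun a => chg st a.2 i)]
    rfl

theorem pair_emax (hd : 1 ≤ d) (st : A → V d) (m : Measure (V d → A × A))
    (hm : Inv (Cfg2 st) m) (s : Fin d → ℝ) (hs : ∀ i, mean (chg2 st) m i = 2 * s i) :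
    hent m ≤ 2 * Emax st s := by
  haveI := hm.prob
  obtain ⟨h1, h2, h3⟩ := pair_inv st m hm
  haveI := h1.prob
  haveI := h2.prob
  have hle := hent_pair_le m hm.map
  have e1 := le_emax st _ h1
  have e2 := le_emax st _ h2
  have hc := (emax_concave hd st (mean (chg st) (m.map c1)) (mean (chg st) (m.map c2))
    ⟨_, h1, rfl⟩ ⟨_, h2, rfl⟩ (1 / 2) (by norm_num) (by norm_num)).2
  have hs' : (1 / 2 : ℝ) • mean (chg st) (m.map c1) + (1 - 1 / 2 : ℝ) •
      mean (chg st) (m.map c2) = s := by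
    funext i
    have := hs i
    rw [h3 i] at this
    simp only [Pi.add_apply, Pi.smul_apply, smul_eq_mul]
    linarith
  rw [hs'] at hc
  linarith

theorem pairLaw_inv (st : A → V d) (μ ν : Measure (V d → A)) (hμ : Inv (Cfg st) μ)
    (hν : Inv (Cfg st) ν) : Inv (Cfg2 st) (pairLaw μ ν) ∧
      ∀ i, mean (chg2 st) (pairLaw μ ν) i = mean (chg st) μ i + mean (chg st) ν i := by
  haveI := hμ.prob
  haveI := hν.prob
  haveI := pairLaw_prob μ ν
  obtain ⟨hc1, hc2⟩ := pairLaw_c μ ν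
  have hI : Inv (Cfg2 st) (pairLaw μ ν) := by
    refine ⟨pairLaw_prob μ ν, pairLaw_shift μ ν hμ.map hν.map, ?_⟩
    have h1 : ∀ᵐ ω ∂(pairLaw μ ν), c1 ω ∈ Cfg st := by
      have := hμ.supp
      rw [← hc1] at this
      exact ae_of_ae_map measurable_c1.aemeasurable this
    have h2 : ∀ᵐ ω ∂(pairLaw μ ν), c2 ω ∈ Cfg st := by
      have := hν.supp
      rw [← hc2] at this
      exact ae_of_ae_map measurable_c2.aemeasurable this
    filter_upwards [h1, h2] with ω a b using ⟨a, b⟩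
  refine ⟨hI, fun i => ?_⟩
  have h3 := (pair_inv st _ hI).2.2 i
  rw [hc1, hc2] at h3
  exact h3

theorem inv_cond (C : Set (V d → A)) (μ : Measure (V d → A)) (hμ : Inv C μ)
    (E : Set (V d → A)) (hE : MeasurableSet E) (hinv : ∀ v, shift v ⁻¹' E = E)
    (h0 : μ E ≠ 0) : Inv C (μ[|E]) := by
  haveI := hμ.prob
  refine ⟨cond_isProbabilityMeasure h0, fun v => ?_, ?_⟩
  · unfold ProbabilityTheory.cond
    rw [Measure.map_smul]
    congr 1
    have h1 := Measure.restrict_map (μ := μ) (measurable_shiftE v) hE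
    rw [hμ.map v, hinv v] at h1
    exact h1.symm
  · exact cond_absolutelyContinuous.ae_le hμ.supp

theorem cond_mix (μ : Measure (V d → A)) [IsProbabilityMeasure μ] (E : Set (V d → A))
    (hE : MeasurableSet E) (h0 : μ E ≠ 0) (h1 : μ Eᶜ ≠ 0) :
    mix (μ.real E) (μ[|E]) (μ[|Eᶜ]) = μ := by
  unfold mix ProbabilityTheory.cond
  have e1 : ENNReal.ofReal (μ.real E) = μ E := ENNReal.ofReal_toReal (measure_ne_top μ E)
  have e2 : ENNReal.ofReal (1 - μ.real E) = μ Eᶜ := by
    rw [← probReal_compl_eq_one_sub hE]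
    exact ENNReal.ofReal_toReal (measure_ne_top μ Eᶜ)
  rw [e1, e2, smul_smul, smul_smul, ENNReal.mul_inv_cancel h0 (measure_ne_top μ E),
    ENNReal.mul_inv_cancel h1 (measure_ne_top μ Eᶜ), one_smul, one_smul,
    Measure.restrict_add_restrict_compl hE]

end Helper15.DE
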