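import Pool.Agent.Helper10.DE.ET.Defs

/-!
# DE III.2  Sequential compactness of the probability measures on `V d → A`

PROOF.  Give `A` the discrete topology (`letI : TopologicalSpace A := ⊥`, `DiscreteTopology`,
`BorelSpace A` since all sets are measurable); `V d → A` is compact, its Borel sets are the product
sigma-algebra (`Pi.borelSpace`, countable index, second countable).  Mathlib:
`instance [CompactSpace E] : CompactSpace (ProbabilityMeasure E)`
(MeasureTheory/Measure/Prokhorov.lean).  Let `I` be the countable type of cylinders
`Σ F : Finset (V d), (F → A)`.  The map `Φ : ProbabilityMeasure → (I → ℝ)`,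
`μ ↦ (μ (cylinder))` is continuous, because a cylinder is clopen (empty frontier,
`ProbabilityMeasure.tendsto_measure_of_null_frontier_of_tendsto'` or the integral of a continuous
indicator).  `I → Icc 0 1` is compact and metrizable (countable product), so the sequence
`Φ (μ n)` has a subsequence `φ` along which all cylinder probabilities converge.  The sequence
`μ (φ n)` has a cluster point `ν` in the compact space `ProbabilityMeasure`; by continuity of `Φ`
the cylinder probabilities of `ν` are cluster points of convergent real sequences, hence equal to
the limits.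
-/

noncomputable section

open MeasureTheory Filter Topology

namespace Helper15.DE

variable {d : ℕ} {A : Type} [Fintype A] [MeasurableSpace A] [MeasurableSingletonClass A]

theorem seq_compact (μ : ℕ → Measure (V d → A)) (hμ : ∀ n, IsProbabilityMeasure (μ n)) :
    ∃ ν : Measure (V d → A), IsProbabilityMeasure ν ∧ ∃ φ : ℕ → ℕ, StrictMono φ ∧
      CylTo (fun n => μ (φ n)) ν := by
  let _ : TopologicalSpace A := ⊥
  have : DiscreteTopology A := ⟨rfl⟩
  have : BorelSpace A := inferInstance
  let P : ℕ → ProbabilityMeasure (V d → A) := fun n => ⟨μ n, hμ n⟩
  obtain ⟨ν, φ, hφ, hlim⟩ := CompactSpace.tendsto_subseq P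
  refine ⟨(ν : Measure (V d → A)), inferInstance, φ, hφ, ?_⟩
  intro F a
  have hcl : IsClopen {ω : V d → A | ∀ x : F, ω x = a x} := by
    have h1 : {ω : V d → A | ∀ x : F, ω x = a x} = ⋂ x : F, {ω : V d → A | ω x = a x} := by
      ext ω
      simp
    rw [h1]
    apply isClopen_iInter_of_finite
    intro x
    exact (isClopen_discrete {a x}).preimage (continuous_apply (x : V d))
  have h2 := ProbabilityMeasure.tendsto_measure_of_null_frontier_of_tendsto' hlim
    (E := {ω : V d → A | ∀ x : F, ω x = a x}) (by rw [hcl.frontier_eq]; simp)
  have h3 := (ENNReal.tendsto_toReal (measure_ne_top (ν : Measure (V d → A))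
    {ω : V d → A | ∀ x : F, ω x = a x})).comp h2
  exact h3

end Helper15.DE
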