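import Pool.Agent.Helper10.DE.CP.Closed
import Pool.Agent.Helper10.DE.CP.SeqCompact
import Pool.Agent.Helper10.DE.ET.Usc
import Pool.Agent.Helper10.DE.ET.Affine

/-!
# DE III.3  Limits and maximizers

* `cyl_ext`: two probability measures with the same cylinder probabilities are equal (the cylinders
  form a pi-system generating the product sigma-algebra; or `Measure.ext` through
  `MeasureTheory.IsProjectiveLimit.unique` / `generateFrom_measurableCylinders`).
* `inv_lim`: `ν.map (shift v)` and `ν` have the same cylinder probabilities (limits); `closed_lim`.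
* `mean_tendsto`: `mean c (μ n) i = ∑_a c a i (μ n).real {ω | ω 0 = a}`: a finite sum of cylinder
  probabilities with `F = {0}`.
* `exists_max`: take `μ n` in the nonempty set with `hent (μ n) → sup` (the values are in
  `[0, log |A|]`), a convergent subsequence (`seq_compact`), limit `ν`: `Inv C ν` (`inv_lim`),
  `mean c ν = s` (`mean_tendsto`), `hent ν ≥ sup` (`hent_usc`).
-/

noncomputable section

open MeasureTheory Filter Topology

namespace Helper15.DE

variable {d : ℕ} {A : Type} [Fintype A] [MeasurableSpace A] [MeasurableSingletonClass A]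

theorem cyl_ext (μ ν : Measure (V d → A)) [IsProbabilityMeasure μ] [IsProbabilityMeasure ν]
    (h : ∀ (F : Finset (V d)) (a : F → A),
      μ.real {ω | ∀ x : F, ω x = a x} = ν.real {ω | ∀ x : F, ω x = a x}) : μ = ν := by
  refine ext_of_generate_finite (measurableCylinders fun _ : V d => A)
    generateFrom_measurableCylinders.symm isPiSystem_measurableCylinders (fun s hs => ?_) (by simp)
  obtain ⟨F, S, hS, rfl⟩ := (mem_measurableCylinders s).1 hs
  have hm : Measurable (F.restrict (π := fun _ : V d => A)) := Finset.measurable_restrict F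
  have h1 : μ.map (F.restrict (π := fun _ : V d => A)) =
      ν.map (F.restrict (π := fun _ : V d => A)) := by
    have p1 : IsProbabilityMeasure (μ.map (F.restrict (π := fun _ : V d => A))) :=
      Measure.isProbabilityMeasure_map hm.aemeasurable
    have p2 : IsProbabilityMeasure (ν.map (F.restrict (π := fun _ : V d => A))) :=
      Measure.isProbabilityMeasure_map hm.aemeasurable
    rw [Measure.ext_iff_singleton]
    intro a
    rw [Measure.map_apply hm (measurableSet_singleton a),
      Measure.map_apply hm (measurableSet_singleton a)]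
    have h2 : (F.restrict (π := fun _ : V d => A)) ⁻¹' {a} = {ω | ∀ x : F, ω x = a x} := by
      ext ω
      simp only [Set.mem_preimage, Set.mem_singleton_iff, Set.mem_ofPred_eq, funext_iff,
        Finset.restrict]
    rw [h2]
    have h3 := h F a
    rwa [measureReal_def, measureReal_def, ENNReal.toReal_eq_toReal_iff' (measure_ne_top _ _)
      (measure_ne_top _ _)] at h3
  have h4 : cylinder F S = (F.restrict (π := fun _ : V d => A)) ⁻¹' S := rfl
  rw [h4, ← Measure.map_apply hm hS, ← Measure.map_apply hm hS, h1]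

omit [Fintype A] [MeasurableSpace A] [MeasurableSingletonClass A] in
theorem lim_shift_cyl (v : V d) (F : Finset (V d)) (a : F → A) :
    ∃ (F' : Finset (V d)) (a' : F' → A),
      shift v ⁻¹' {ω : V d → A | ∀ x : F, ω x = a x} = {ω | ∀ x : F', ω x = a' x} := by
  classical
  have hmem : ∀ y ∈ F.image (fun x => x + v), y - v ∈ F := by
    intro y hy
    obtain ⟨x, hx, rfl⟩ := Finset.mem_image.1 hy
    simpa using hx
  refine ⟨F.image fun x => x + v, fun y => a ⟨y.1 - v, hmem y.1 y.2⟩, ?_⟩
  ext ω
  simp only [Set.mem_preimage, Set.mem_ofPred_eq, shift]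
  constructor
  · intro h y
    have := h ⟨y.1 - v, hmem y.1 y.2⟩
    simpa using this
  · intro h x
    have := h ⟨x.1 + v, Finset.mem_image_of_mem _ x.2⟩
    simpa using this

theorem inv_lim (C : Set (V d → A)) (hC : ClosedC C) (μ : ℕ → Measure (V d → A))
    (ν : Measure (V d → A)) (hμ : ∀ n, Inv C (μ n)) (hν : IsProbabilityMeasure ν)
    (h : CylTo μ ν) : Inv C ν := by
  refine ⟨hν, fun v => ?_, closed_lim C hC μ ν (fun n => (hμ n).prob) hν h
    fun n => (hμ n).supp⟩
  have hsm : Measurable (shift v : (V d → A) → (V d → A)) := measurable_shiftE v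
  have hp : IsProbabilityMeasure (ν.map (shift v)) := Measure.isProbabilityMeasure_map hsm.aemeasurable
  refine cyl_ext _ _ fun F a => ?_
  have hmc : MeasurableSet {ω : V d → A | ∀ x : F, ω x = a x} := by
    have : {ω : V d → A | ∀ x : F, ω x = a x} = (fun (ω : V d → A) (x : F) => ω x) ⁻¹' {a} := by
      ext ω
      simp only [Set.mem_preimage, Set.mem_singleton_iff, Set.mem_ofPred_eq, funext_iff]
    rw [this]
    exact measurable_restr F (measurableSet_singleton a)
  obtain ⟨F', a', hF'⟩ := lim_shift_cyl v F a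
  rw [measureReal_def, Measure.map_apply hsm hmc, hF', ← measureReal_def]
  refine tendsto_nhds_unique (h F' a') ?_
  have h1 : ∀ n, (μ n).real {ω | ∀ x : F', ω x = a' x} = (μ n).real {ω | ∀ x : F, ω x = a x} := by
    intro n
    rw [← hF', measureReal_def, ← Measure.map_apply hsm hmc, (hμ n).map v, ← measureReal_def]
  simp_rw [h1]
  exact h F a

theorem mean_eq {k : ℕ} (c : A → Fin k → ℝ) (μ : Measure (V d → A)) [IsProbabilityMeasure μ]
    (i : Fin k) : mean c μ i = ∑ a, c a i * μ.real {ω | ω 0 = a} := by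
  have hm : Measurable (fun ω : V d → A => ω 0) := measurable_pi_apply 0
  have hp : IsProbabilityMeasure (μ.map fun ω : V d → A => ω 0) :=
    Measure.isProbabilityMeasure_map hm.aemeasurable
  have h1 : mean c μ i = ∫ a, c a i ∂(μ.map fun ω : V d → A => ω 0) := by
    unfold mean
    rw [integral_map hm.aemeasurable (measurable_of_finite fun a => c a i).aestronglyMeasurable]
  rw [h1, integral_fintype Integrable.of_finite]
  refine Finset.sum_congr rfl fun a _ => ?_
  rw [measureReal_def, Measure.map_apply hm (measurableSet_singleton a), smul_eq_mul, mul_comm,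
    ← measureReal_def]
  rfl

theorem mean_tendsto {k : ℕ} (c : A → Fin k → ℝ) (μ : ℕ → Measure (V d → A))
    (ν : Measure (V d → A)) (hμ : ∀ n, IsProbabilityMeasure (μ n)) (hν : IsProbabilityMeasure ν)
    (h : CylTo μ ν) (i : Fin k) :
    Tendsto (fun n => mean c (μ n) i) atTop (𝓝 (mean c ν i)) := by
  have h1 : ∀ n, mean c (μ n) i = ∑ a, c a i * (μ n).real {ω | ω 0 = a} := fun n => by
    have := hμ n
    exact mean_eq c (μ n) i
  simp_rw [h1]
  rw [mean_eq c ν i]
  refine tendsto_finsetSum _ fun a _ => Tendsto.const_mul _ ?_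
  have h2 : {ω : V d → A | ω 0 = a} =
      {ω : V d → A | ∀ x : ({0} : Finset (V d)), ω x = (fun _ => a) x} := by
    ext ω
    simp
  rw [h2]
  exact h {0} fun _ => a

theorem mean_mix {k : ℕ} (c : A → Fin k → ℝ) (t : ℝ) (h0 : 0 ≤ t) (h1 : t ≤ 1)
    (μ ν : Measure (V d → A)) [IsProbabilityMeasure μ] [IsProbabilityMeasure ν] :
    mean c (mix t μ ν) = t • mean c μ + (1 - t) • mean c ν := by
  have hp := mix_prob t h0 h1 μ ν
  ext i
  rw [mean_eq c _ i, Pi.add_apply, Pi.smul_apply, Pi.smul_apply, mean_eq c μ i, mean_eq c ν i,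
    smul_eq_mul, smul_eq_mul, Finset.mul_sum, Finset.mul_sum, ← Finset.sum_add_distrib]
  refine Finset.sum_congr rfl fun a _ => ?_
  rw [mix_real t h0 h1]
  ring

theorem inv_mix (C : Set (V d → A)) (t : ℝ) (h0 : 0 ≤ t) (h1 : t ≤ 1)
    (μ ν : Measure (V d → A)) (hμ : Inv C μ) (hν : Inv C ν) : Inv C (mix t μ ν) := by
  have p1 := hμ.prob
  have p2 := hν.prob
  refine ⟨mix_prob t h0 h1 μ ν, mix_shift t μ ν hμ.map hν.map, ?_⟩
  unfold mix
  rw [ae_add_measure_iff]
  exact ⟨Measure.ae_smul_measure hμ.supp _, Measure.ae_smul_measure hν.supp _⟩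

theorem exists_max (C : Set (V d → A)) (hC : ClosedC C) {k : ℕ} (c : A → Fin k → ℝ)
    (s : Fin k → ℝ) (hne : ∃ μ, Inv C μ ∧ mean c μ = s) :
    ∃ μ, Inv C μ ∧ mean c μ = s ∧ ∀ ν, Inv C ν → mean c ν = s → hent ν ≤ hent μ := by
  let S : Set ℝ := {h | ∃ μ, Inv C μ ∧ mean c μ = s ∧ hent μ = h}
  have hS : S.Nonempty := by
    obtain ⟨μ, h1, h2⟩ := hne
    exact ⟨_, μ, h1, h2, rfl⟩
  have hb : BddAbove S := by
    refine ⟨Real.log (Fintype.card A), ?_⟩
    rintro _ ⟨μ, h1, -, rfl⟩
    have := h1.prob
    exact hent_le_log μ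
  obtain ⟨u, -, hu, hmem⟩ := exists_seq_tendsto_sSup hS hb
  choose μ h1 h2 h3 using hmem
  obtain ⟨ν, hν, φ, hφ, hcyl⟩ := seq_compact μ fun n => (h1 n).prob
  have h4 : Inv C ν := inv_lim C hC _ ν (fun n => h1 (φ n)) hν hcyl
  refine ⟨ν, h4, ?_, ?_⟩
  · ext i
    have h5 := mean_tendsto c _ ν (fun n => (h1 (φ n)).prob) hν hcyl i
    simp_rw [h2] at h5
    exact tendsto_nhds_unique h5 tendsto_const_nhds
  · intro ν' h5 h6
    have h7 : hent ν' ≤ sSup S := le_csSup hb ⟨ν', h5, h6, rfl⟩
    have h8 : sSup S ≤ hent ν :=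
      hent_usc _ ν (fun n => (h1 (φ n)).prob) hν hcyl (fun n => u (φ n)) (sSup S)
        (hu.comp hφ.tendsto_atTop) fun n => (h3 (φ n)).ge
    exact h7.trans h8

end Helper15.DE
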